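import Pool.Agent.Y208.BH.Stm

/-!
# Project BH: diagonal matrices are elementary
-/

set_option autoImplicit false

namespace Pool.Agent.Y665.BH

open Y208.BH

section
variable {R V I : Type} [Ring R] [AddCommGroup V] [Module R V]

theorem el_same {i j : I} (h : i ≠ j) (r : R) (w : I →₀ V) : (el i j r w) i = w i + r • w j := by
  rw [el_apply h, Finsupp.add_apply, Finsupp.single_eq_same]

theorem el_ne {i j k : I} (h : i ≠ j) (hk : k ≠ i) (r : R) (w : I →₀ V) : (el i j r w) k = w k := by
  rw [el_apply h, Finsupp.add_apply, Finsupp.single_eq_of_ne hk, add_zero]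

theorem dg_same (o : I) (u : Rˣ) (w : I →₀ V) : (dg o u w) o = (u : R) • w o := by
  show (w + Finsupp.single o ((u : R) • w o - w o)) o = _
  rw [Finsupp.add_apply, Finsupp.single_eq_same, add_sub_cancel]

theorem dg_ne {o k : I} (hk : k ≠ o) (u : Rˣ) (w : I →₀ V) : (dg o u w) k = w k := by
  show (w + Finsupp.single o ((u : R) • w o - w o)) k = _
  rw [Finsupp.add_apply, Finsupp.single_eq_of_ne hk, add_zero]

theorem dg_mul (o : I) (u v : Rˣ) : (dg o (u * v) : Equiv.Perm (I →₀ V)) = dg o u * dg o v := by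
  apply Equiv.ext
  intro w
  ext k
  rw [Equiv.Perm.mul_apply]
  by_cases hk : k = o
  · subst hk
    rw [dg_same, dg_same, dg_same, Units.val_mul, mul_smul]
  · rw [dg_ne hk, dg_ne hk, dg_ne hk]

theorem el_mem {i j : I} (h : i ≠ j) (r : R) : (el i j r : Equiv.Perm (I →₀ V)) ∈ EG R V I :=
  Subgroup.subset_closure ⟨i, j, r, h, rfl⟩

/-- diagonal matrices normalize the elementary group -/
theorem conj_mem (o : I) (u : Rˣ) {g : Equiv.Perm (I →₀ V)} (hg : g ∈ EG R V I) :
    dg o u * g * (dg o u)⁻¹ ∈ EG R V I := by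
  have h : EG R V I ≤ (EG R V I).comap (MulAut.conj (dg o u : Equiv.Perm (I →₀ V))).toMonoidHom := by
    refine (Subgroup.closure_le _).2 ?_
    rintro _ ⟨i, j, r, hij, rfl⟩
    show (dg o u : Equiv.Perm (I →₀ V)) * el i j r * (dg o u)⁻¹ ∈ EG R V I
    obtain ⟨r', h'⟩ : ∃ r' : R, (dg o u : Equiv.Perm (I →₀ V)) * el i j r = el i j r' * dg o u := by
      by_cases hi : i = o
      · subst hi
        refine ⟨(u : R) * r, ?_⟩
        apply Equiv.ext
        intro w
        ext k
        rw [Equiv.Perm.mul_apply, Equiv.Perm.mul_apply]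
        by_cases hk : k = i
        · subst hk
          rw [dg_same, el_same hij, el_same hij, dg_same, dg_ne hij.symm, smul_add, mul_smul]
        · rw [dg_ne hk, el_ne hij hk, el_ne hij hk, dg_ne hk]
      · by_cases hj : j = o
        · subst hj
          refine ⟨r * ((u⁻¹ : Rˣ) : R), ?_⟩
          apply Equiv.ext
          intro w
          ext k
          rw [Equiv.Perm.mul_apply, Equiv.Perm.mul_apply]
          by_cases hk : k = i
          · subst hk
            rw [dg_ne hij, el_same hij, el_same hij, dg_same, dg_ne hij, mul_smul, smul_smul ((u⁻¹ : Rˣ) : R),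
              Units.inv_mul, one_smul]
          · rw [el_ne hij hk]
            by_cases hk2 : k = j
            · subst hk2
              rw [dg_same, dg_same, el_ne hij hk]
            · rw [dg_ne hk2, dg_ne hk2, el_ne hij hk]
        · refine ⟨r, ?_⟩
          apply Equiv.ext
          intro w
          ext k
          rw [Equiv.Perm.mul_apply, Equiv.Perm.mul_apply]
          by_cases hk : k = i
          · subst hk
            rw [dg_ne hi, el_same hij, el_same hij, dg_ne hi, dg_ne hj]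
          · rw [el_ne hij hk]
            by_cases hk2 : k = o
            · subst hk2
              rw [dg_same, dg_same, el_ne hij hk]
            · rw [dg_ne hk2, dg_ne hk2, el_ne hij hk]
    rw [h', mul_inv_cancel_right]
    exact el_mem hij r'
  exact h hg

/-- the main computation -/
theorem move {o p : I} (hop : o ≠ p) {s s' x : R} {u v : Rˣ} (hu : (u : R) = 1 + x) (hv : (v : R) = 1 + s * x * s')
    (h1 : s' * s * x = x) (h2 : x * (s' * s) = x) :
    (dg p v : Equiv.Perm (I →₀ V)) * (dg o u)⁻¹ ∈ EG R V I := by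
  obtain ⟨M, hM⟩ : ∃ M : Equiv.Perm (I →₀ V), M = el p o s * el o p (-s') * el p o s := ⟨_, rfl⟩
  have hMm : M ∈ EG R V I := by
    rw [hM]
    exact mul_mem (mul_mem (el_mem hop.symm _) (el_mem hop _)) (el_mem hop.symm _)
  have hMo : ∀ w : I →₀ V, (M w) o = w o - s' • (w p + s • w o) := by
    intro w
    rw [hM, Equiv.Perm.mul_apply, Equiv.Perm.mul_apply, el_ne hop.symm hop, el_same hop, el_ne hop.symm hop,
      el_same hop.symm, neg_smul, sub_eq_add_neg]
  have hMp : ∀ w : I →₀ V, (M w) p = (w p + s • w o) + s • (w o - s' • (w p + s • w o)) := by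
    intro w
    rw [hM, Equiv.Perm.mul_apply, Equiv.Perm.mul_apply, el_same hop.symm, el_same hop, el_ne hop hop.symm,
      el_same hop.symm, el_ne hop.symm hop, neg_smul, sub_eq_add_neg]
  have hMk : ∀ (w : I →₀ V) (k : I), k ≠ o → k ≠ p → (M w) k = w k := by
    intro w k hko hkp
    rw [hM, Equiv.Perm.mul_apply, Equiv.Perm.mul_apply, el_ne hop.symm hkp, el_ne hop hko, el_ne hop.symm hkp]
  have h : M * dg o u = dg p v * M := by
    apply Equiv.ext
    intro w
    ext k
    show (M (dg o u w)) k = (dg p v (M w)) k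
    by_cases hko : k = o
    · subst hko
      rw [hMo, dg_ne hop, hMo, dg_same, dg_ne hop.symm, hu]
      have e : s' • s • x • w k = x • w k := by rw [smul_smul, smul_smul, h1]
      simp only [add_smul, one_smul, smul_add, e]
      abel
    · by_cases hkp : k = p
      · subst hkp
        rw [hMp (dg o u w), dg_same, dg_ne hko, dg_same, hMp w, hu, hv]
        have e1 : s' • s • x • w o = x • w o := by rw [smul_smul, smul_smul, h1]
        have e2 : ∀ y : V, x • s' • s • y = x • y := by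
          intro y
          rw [smul_smul s' s, smul_smul, h2]
        simp only [add_smul, one_smul, smul_add, smul_sub, mul_smul, e1, e2]
        abel
      · rw [hMk _ _ hko hkp, dg_ne hko, dg_ne hkp, hMk _ _ hko hkp]
  have h3 : (dg p v : Equiv.Perm (I →₀ V)) * (dg o u)⁻¹ = M * (dg o u * M⁻¹ * (dg o u)⁻¹) := by
    have : dg p v = M * dg o u * M⁻¹ := by rw [h, mul_inv_cancel_right]
    rw [this]
    group
  rw [h3]
  exact mul_mem hMm (conj_mem o u (inv_mem hMm))

end

/-- the unit `1 + s (u - 1) s'` -/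
theorem exists_unit {R : Type} [Ring R] {s s' x : R} {u : Rˣ} (hu : (u : R) = 1 + x)
    (h2 : x * (s' * s) = x) : ∃ v : Rˣ, (v : R) = 1 + s * x * s' := by
  set y : R := ((u⁻¹ : Rˣ) : R) - 1 with hy
  have hx : x = (u : R) - 1 := by rw [hu]; abel
  have hy1 : y = -(((u⁻¹ : Rˣ) : R) * x) := by
    rw [hy, hx, mul_sub, Units.inv_mul, mul_one]; abel
  have h3 : y * (s' * s) = y := by rw [hy1, neg_mul, mul_assoc, h2]
  have h4 : x + y + x * y = 0 := by
    rw [hx, hy, sub_mul, mul_sub, Units.mul_inv]; simp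
  have h5 : y + x + y * x = 0 := by
    rw [hx, hy, sub_mul, mul_sub, Units.inv_mul]; simp
  refine ⟨⟨1 + s * x * s', 1 + s * y * s', ?_, ?_⟩, rfl⟩
  · have e : s * x * s' * (s * y * s') = s * (x * y) * s' := by
      calc s * x * s' * (s * y * s') = s * (x * (s' * s)) * y * s' := by noncomm_ring
        _ = _ := by rw [h2]; noncomm_ring
    calc (1 + s * x * s') * (1 + s * y * s') = 1 + s * x * s' + s * y * s' + s * x * s' * (s * y * s') := by
          noncomm_ring
      _ = 1 + s * (x + y + x * y) * s' := by rw [e]; noncomm_ring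
      _ = 1 := by rw [h4]; simp
  · have e : s * y * s' * (s * x * s') = s * (y * x) * s' := by
      calc s * y * s' * (s * x * s') = s * (y * (s' * s)) * x * s' := by noncomm_ring
        _ = _ := by rw [h3]; noncomm_ring
    calc (1 + s * y * s') * (1 + s * x * s') = 1 + s * y * s' + s * x * s' + s * y * s' * (s * x * s') := by
          noncomm_ring
      _ = 1 + s * (y + x + y * x) * s' := by rw [e]; noncomm_ring
      _ = 1 := by rw [h5]; simp

theorem t_K1 : Y208.BH.S_K1 := by
  intro R V I _ _ _ _ hsw o u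
  obtain ⟨e, e', s, s', Φ, h1, h2, _, h4, h5, h6⟩ := hsw
  obtain ⟨p, hp⟩ : ∃ p : I, p ≠ o := exists_ne o
  -- same index
  have same : ∀ {s s' x : R} {u v : Rˣ}, (u : R) = 1 + x → (v : R) = 1 + s * x * s' →
      s' * s * x = x → x * (s' * s) = x → (dg o v : Equiv.Perm (I →₀ V)) * (dg o u)⁻¹ ∈ EG R V I := by
    intro s s' x u v hu hv hx1 hx2
    have e1 : (dg p v : Equiv.Perm (I →₀ V)) * (dg o u)⁻¹ ∈ EG R V I := move hp.symm hu hv hx1 hx2
    have e2 : (dg o v : Equiv.Perm (I →₀ V)) * (dg p v)⁻¹ ∈ EG R V I :=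
      move hp (s := 1) (s' := 1) (x := s * x * s') hv (by rw [hv]; simp) (by simp) (by simp)
    have := mul_mem e2 e1
    rwa [mul_assoc, inv_mul_cancel_left] at this
  -- the units
  obtain ⟨a, ha⟩ := exists_unit (R := R) (s := e) (s' := e') (x := (u : R) - 1) (u := u) (by abel)
    (by rw [h1, mul_one])
  have hΦ : ∀ a b, Φ (a * b) = Φ a * Φ b := map_mul Φ
  have hone : ∀ a, Φ 1 * Φ a = Φ a := fun a => by rw [← hΦ, one_mul]
  have hone' : ∀ a, Φ a * Φ 1 = Φ a := fun a => by rw [← hΦ, mul_one]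
  obtain ⟨c, hc⟩ : ∃ c : Rˣ, (c : R) = 1 + (Φ u - Φ 1) := by
    refine ⟨⟨1 + (Φ u - Φ 1), 1 + (Φ ((u⁻¹ : Rˣ) : R) - Φ 1), ?_, ?_⟩, rfl⟩
    · have e1 : Φ u * Φ ((u⁻¹ : Rˣ) : R) = Φ 1 := by rw [← hΦ, Units.mul_inv]
      simp only [mul_add, add_mul, mul_sub, sub_mul, mul_one, one_mul, e1, hone, hone']
      abel
    · have e1 : Φ ((u⁻¹ : Rˣ) : R) * Φ u = Φ 1 := by rw [← hΦ, Units.inv_mul]
      simp only [mul_add, add_mul, mul_sub, sub_mul, mul_one, one_mul, e1, hone, hone']
      abel
  have hx1 : s' * s * (Φ u - Φ 1) = Φ u - Φ 1 := by rw [mul_sub, h4, h4]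
  have hx2 : (Φ u - Φ 1) * (s' * s) = Φ u - Φ 1 := by rw [sub_mul, h5, h5]
  obtain ⟨b, hb⟩ := exists_unit (R := R) (s := s) (s' := s') hc hx2
  have hcab : c = a * b := by
    apply Units.ext
    rw [Units.val_mul, hc, ha, hb]
    have e1 : Φ (u : R) = e * u * e' + s * Φ u * s' := h6 _
    have e2 : Φ (1 : R) = e * 1 * e' + s * Φ 1 * s' := h6 _
    have e3 : e * ((u : R) - 1) * e' * (s * (Φ u - Φ 1) * s') = 0 := by
      calc e * ((u : R) - 1) * e' * (s * (Φ u - Φ 1) * s') = e * ((u : R) - 1) * (e' * s) * ((Φ u - Φ 1) * s') := by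
            noncomm_ring
        _ = 0 := by rw [h2]; simp
    calc 1 + (Φ u - Φ 1) = 1 + ((e * u * e' + s * Φ u * s') - (e * 1 * e' + s * Φ 1 * s')) := by rw [← e1, ← e2]
      _ = (1 + e * ((u : R) - 1) * e') * (1 + s * (Φ u - Φ 1) * s') := by
          have e4 : ∀ X Y : R, (1 + X) * (1 + Y) = 1 + X + Y + X * Y := fun X Y => by noncomm_ring
          rw [e4, e3]
          noncomm_ring
  have r1 : (dg o a : Equiv.Perm (I →₀ V)) * (dg o u)⁻¹ ∈ EG R V I :=
    same (s := e) (s' := e') (x := (u : R) - 1) (by abel) ha (by rw [h1, one_mul]) (by rw [h1, mul_one])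
  have r2 : (dg o b : Equiv.Perm (I →₀ V)) * (dg o c)⁻¹ ∈ EG R V I := same hc hb hx1 hx2
  have r3 : (dg o c : Equiv.Perm (I →₀ V)) = dg o a * dg o b := by rw [hcab, dg_mul]
  have r4 : (dg o u : Equiv.Perm (I →₀ V)) = (dg o a * (dg o u)⁻¹)⁻¹ * (dg o b * (dg o c)⁻¹)⁻¹ := by
    rw [r3]
    group
  rw [r4]
  exact mul_mem (inv_mem r1) (inv_mem r2)

end Pool.Agent.Y665.BH
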